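import Pool.Agent.W896.FD.MatVec

/-!
# Verifying a matrix-vector product needs many reads of the vectors or much memory

A matrix `M` with `n` rows and `n` columns over the field with two elements and two vectors `v`, `w`
are given, and the problem is to decide if `M v = w`. The matrix may be read without any limit; we
bound the number of reads of the vectors.

We consider Boolean circuits with AND gates of fan-in two, OR gates of any fan-in and negations at
the inputs. Such a circuit accepts if and only if it has a proof tree all of whose leaves are true
literals; the formal degree in an input bit is the largest number of leaves with this bit, that is,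
the number of times this bit is read. Nondeterministic, in particular deterministic, branching
programs are such circuits (the logarithm of the size is the memory, and a bit which is read at most
`k` times on every path has degree at most `k`), and so are programs with a stack. There is no
bound on the time.

The trivial algorithm with a memory of `n + O (log n)` bits stores `v` and reads each bit of the
vectors once; with a memory of `O (log n)` bits the vector `v` is read `n` times. We show that the
circuits which accept exactly the correct products `M v = w` have size `2 ^ Ω (n)` if the formal
degrees in the `2 n` bits of the vectors sum up to `O (n)`. So with a memory of `o (n)` bits the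
vectors must be read a superconstant number of times for a single product (even by nondeterministic
algorithms with a stack, which read the matrix as often as they like). The statement remains true
for circuits with one-sided randomness which never accept a wrong product and find out only with
probability `2 ^ (- n / D)` that a product is correct. The same holds for the Boolean product (second
part of the theorem).

The hard instances are the permutation matrices of random involutions.
-/

set_option autoImplicit false

namespace Pool.Agent.Results.MP_0f1f76_lc.ProductVerification

open Pool.Agent.W896.RK Pool.Agent.W896.FD Pool.Agent.W896.FD.MatVec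

/-- The bits `(i, j)` are those of the matrix, `(false, j)` those of the vector `v` and `(true, i)`
those of the vector `w`; `MulF x` says that `M v = w` over the field with two elements, `MulB x` that
`w` is the Boolean product. `U r` (`r` in a finite nonempty set) are circuits in which the formal
degrees in the `2 n` bits of the vectors sum up to at most `k n`.

1. If the `U r` accept only `x` with `MulF x`, and each such `x` is accepted by at least a
`2 ^ (- ⌊n / 2 ^ (60 (k + 1))⌋)` fraction of them, then some `U r` has `g` gates with
`n ≤ 2 ^ (60 (k + 1)) (⌊log₂ g⌋ + 1)`.

2. The same for `MulB`. -/
theorem result (k n : ℕ) (R : Type) [Fintype R] [Nonempty R]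
    (U : R → Circ ((Fin n × Fin n) ⊕ (Bool × Fin n)))
    (hdeg : ∀ r, ∃ f : (U r).G → (Fin n × Fin n) ⊕ (Bool × Fin n) → ℕ, IsDeg (U r) id f ∧
      ∑ i, (f (U r).out (.inr (false, i)) + f (U r).out (.inr (true, i))) ≤ k * n) :
    ((∀ r x, (U r).Val x (U r).out → MulF x) →
      (∀ x, MulF x →
        Nat.card R ≤ 2 ^ (n / 2 ^ (60 * (k + 1))) * Nat.card {r // (U r).Val x (U r).out}) →
      ∃ r, n ≤ 2 ^ (60 * (k + 1)) * (Nat.log 2 (Fintype.card (U r).G) + 1)) ∧
    ((∀ r x, (U r).Val x (U r).out → MulB x) →
      (∀ x, MulB x →
        Nat.card R ≤ 2 ^ (n / 2 ^ (60 * (k + 1))) * Nat.card {r // (U r).Val x (U r).out}) →
      ∃ r, n ≤ 2 ^ (60 * (k + 1)) * (Nat.log 2 (Fintype.card (U r).G) + 1)) :=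
  ⟨fun hU hc => mv_main k n good_mulF R U hU hc hdeg,
    fun hU hc => mv_main k n good_mulB R U hU hc hdeg⟩

end Pool.Agent.Results.MP_0f1f76_lc.ProductVerification
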