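import Pool.Agent.W896.MO.MvFinal

/-!
# Matrix-vector products over a finite field: time times memory, with a stack

The model is a non-uniform randomised algorithm with a memory of `log₂ s` bits (`s` nodes) and, in
addition, a stack (pushdown store) of unlimited height, on which arbitrary symbols can be put; so
recursion is free. The matrix `M` is known to the algorithm: it may be any algorithm which depends
in an arbitrary way on `M`, and reading `M` and the results of any preprocessing of `M` is free of
charge, as well as all computations and all operations on the stack. The only thing that is counted
is the number `T` of the reads of entries of the vectors and of the writes of entries of the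
products.

The theorem says that for all but a `2 ^ (- ⌊n / 4⌋)` fraction of the `n × n` matrices `M` over a
finite field with `q` elements the products of `M` with `m` random vectors cannot be computed, even
with probability `2 ^ (- π)` only, unless `T * (log₂ s + π + log₂ q) ≥ 2 ^ (-18) * n ^ 2 * m *
log₂ q`. So for `m = n` vectors, as in online matrix-vector multiplication, time times memory is at
least of order `n ^ 3`, and time `O (n ^ (3 - ε))` is possible only with a memory of order `n ^ ε`
besides the stack. It is not required that the products are output online.

Proof. A computation is cut into pieces: by an induction on the nesting of the pushes and pops it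
is covered by `O (T / n)` procedures with at most `n / 32` reads and writes and at most four holes,
in which a part of the computation that begins and ends at the same height of the stack has been
left out; only the entry and exit nodes of the holes are kept. Hence the number of procedures which
can occur is only a polynomial in `s` and `T`. One of the pieces outputs at least
`n m / O (T / n)` entries of the products. But every fixed procedure which reads at most `n / 32`
entries outputs `K` correct entries with probability at most `q ^ (- K / 16)`, because after removing
any `n / 32` columns from a random matrix, any set of `K` of its rows still has rank at least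
`K / 16`, with high probability.
-/

set_option autoImplicit false

namespace Pool.Agent.Results.MP_0f1f76_lc.StackTradeoff

open Pool.Agent.W896.MO

/-- Let `F` be a finite field. For all `n`, all but a fraction of `2 ^ (- ⌊n / 4⌋)` of the `n × n`
matrices `M` over `F` (those which are not in `Bad`) have the following property. Let `P r` be
programs with a stack, with at most `s` nodes each, such that with probability at least `2 ^ (- π)`
over a random `r` and a random `m`-tuple `v` of vectors the program `P r` computes all entries of
the products of `M` with the vectors of `v`, with at most `T` reads and writes. Then
`n² m log₂ |F| ≤ 2 ^ 18 * T * (log₂ s + π + log₂ |F|)`. -/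
theorem result {F : Type} [Field F] [Fintype F] (n : ℕ) : ∃ Bad : Set (Fin n → Fin n → F),
    Nat.card Bad * 2 ^ (n / 4) ≤ Fintype.card F ^ (n * n) ∧
    ∀ M, M ∉ Bad → ∀ (m T π s : ℕ) (R : Type) [Fintype R] [Nonempty R]
      (P : R → Prog (Fin m × Fin n) (Fin m × Fin n) F),
      (∀ r, Fintype.card (P r).State ≤ s) →
      Nat.card R * Fintype.card F ^ (n * m) ≤ 2 ^ π *
        Nat.card {u : R × (Fin m × Fin n → F) // (P u.1).Computes u.2 (mv M u.2) T} →
      (n : ℝ) ^ 2 * m * Real.logb 2 (Fintype.card F) ≤
        2 ^ 18 * T * (Real.logb 2 s + π + Real.logb 2 (Fintype.card F)) :=
  mv_main n

end Pool.Agent.Results.MP_0f1f76_lc.StackTradeoff
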